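import Mathlib

/-!
# Achievement sets with interior points near `2^{-n}`

For `x_n = 2^{-n} + (-1/2)^n / (16 j + 7)` the achievement set has interior points: the digits
`0, 4j+2, 8j+3, 12j+5` form a complete residue system modulo four.
-/

set_option autoImplicit false

open Set Filter Topology

namespace Pool.Agent.Y96.AC.Sharp

variable {x : ℕ → ℝ}

/-- The achievement set `E(x_n)`: all sums of `x_n` over `n ∈ A`, `A` a set of positive integers. -/
def achievementSet (x : ℕ → ℝ) : Set ℝ :=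
  {s : ℝ | ∃ A : Set ℕ, A ⊆ {n | 1 ≤ n} ∧ s = ∑' n, A.indicator x n}

theorem summable_ind (hs : Summable fun k => x (k + 1)) (B : Set ℕ) : Summable (B.indicator x) :=
  ((summable_nat_add_iff 1).1 hs).indicator B

noncomputable def Φ (x : ℕ → ℝ) (ω : ℕ → Bool) : ℝ := ∑' k, (if ω k then x (k + 1) else 0)

theorem Φ_cont (hpos : ∀ n, 1 ≤ n → 0 < x n) (hs : Summable fun k => x (k + 1)) :
    Continuous (Φ x) := by
  refine continuous_tsum (u := fun k => x (k + 1)) (fun k => ?_) hs (fun k ω => ?_)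
  · have h1 : Continuous fun ω : ℕ → Bool => ω k := continuous_apply k
    have h2 : Continuous fun b : Bool => (if b then x (k + 1) else 0 : ℝ) :=
      continuous_of_discreteTopology
    exact h2.comp h1
  · have hx := hpos (k + 1) (by omega)
    split_ifs
    · rw [Real.norm_eq_abs, abs_of_nonneg hx.le]
    · simpa using hx.le

theorem range_Φ (hs : Summable fun k => x (k + 1)) : range (Φ x) = achievementSet x := by
  classical
  ext z
  constructor
  · rintro ⟨ω, rfl⟩
    refine ⟨{n | 1 ≤ n ∧ ω (n - 1) = true}, fun n hn => hn.1, ?_⟩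
    have h := (summable_ind hs {n | 1 ≤ n ∧ ω (n - 1) = true}).tsum_eq_zero_add
    rw [h]
    simp only [Φ]
    rw [indicator_of_notMem (by simp)]
    rw [zero_add]
    refine tsum_congr fun k => ?_
    by_cases hk : ω k = true
    · rw [if_pos hk, indicator_of_mem]
      exact ⟨by omega, by simpa using hk⟩
    · rw [if_neg hk, indicator_of_notMem]
      intro h
      exact hk (by simpa using h.2)
  · rintro ⟨B, hB, rfl⟩
    refine ⟨fun k => decide (k + 1 ∈ B), ?_⟩
    have h := (summable_ind hs B).tsum_eq_zero_add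
    rw [h]
    have h0 : (0 : ℕ) ∉ B := fun h => absurd (hB h) (by simp)
    rw [indicator_of_notMem h0, zero_add]
    simp only [Φ]
    refine tsum_congr fun k => ?_
    by_cases hk : k + 1 ∈ B
    · simp [hk]
    · simp [hk]

theorem E_compact (hpos : ∀ n, 1 ≤ n → 0 < x n) (hs : Summable fun k => x (k + 1)) :
    IsCompact (achievementSet x) := by
  rw [← range_Φ hs]
  exact isCompact_range (Φ_cont hpos hs)

/-! ### Sharpness -/

/-- The sequence `2^{-n} + (-1/2)^n / (16 j + 7)`. -/
noncomputable def y (j n : ℕ) : ℝ := 1 / 2 ^ n + 1 / (16 * (j : ℝ) + 7) * (-(1 / 2)) ^ n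

theorem y_even (j k : ℕ) : y j (2 * k) = 4 / (16 * (j : ℝ) + 7) * ((4 * j + 2) / 4 ^ k) := by
  unfold y
  have h1 : (-(1 / 2 : ℝ)) ^ (2 * k) = 1 / 4 ^ k := by
    rw [pow_mul, show (-(1 / 2 : ℝ)) ^ 2 = 1 / 4 by norm_num, div_pow, one_pow]
  have h2 : (2 : ℝ) ^ (2 * k) = 4 ^ k := by rw [pow_mul]; norm_num
  have h3 : (0 : ℝ) < 16 * (j : ℝ) + 7 := by positivity
  rw [h1, h2]
  field_simp
  ring

theorem y_odd (j k : ℕ) : y j (2 * k + 1) = 4 / (16 * (j : ℝ) + 7) * ((8 * j + 3) / 4 ^ (k + 1)) := by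
  unfold y
  have h1 : (-(1 / 2 : ℝ)) ^ (2 * k + 1) = -(2 / 4 ^ (k + 1)) := by
    rw [pow_succ, pow_mul, show (-(1 / 2 : ℝ)) ^ 2 = 1 / 4 by norm_num, div_pow, one_pow,
      pow_succ]
    field_simp
    norm_num
  have h2 : (2 : ℝ) ^ (2 * k + 1) = 4 ^ (k + 1) / 2 := by
    rw [pow_succ, pow_mul, show (2 : ℝ) ^ 2 = 4 by norm_num, pow_succ]
    ring
  have h3 : (0 : ℝ) < 16 * (j : ℝ) + 7 := by positivity
  rw [h1, h2]
  field_simp
  ring

theorem y_pos (j n : ℕ) : 0 < y j n := by
  rcases Nat.even_or_odd' n with ⟨k, rfl | rfl⟩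
  · rw [y_even]; positivity
  · rw [y_odd]; positivity

theorem y_summable (j : ℕ) : Summable fun k => y j (k + 1) := by
  have h1 : Summable fun k : ℕ => (2 : ℝ) * (1 / 2) ^ (k + 1) :=
    ((summable_nat_add_iff 1).2 summable_geometric_two).mul_left 2
  refine Summable.of_nonneg_of_le (fun k => (y_pos j (k + 1)).le) (fun k => ?_) h1
  unfold y
  have h3 : (0 : ℝ) < 16 * (j : ℝ) + 7 := by positivity
  have h4 : |1 / (16 * (j : ℝ) + 7) * (-(1 / 2)) ^ (k + 1)| ≤ (1 / 2) ^ (k + 1) := by
    rw [abs_mul, abs_pow, abs_neg, abs_of_pos (by positivity : (0 : ℝ) < 1 / (16 * (j : ℝ) + 7)),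
      abs_of_pos (by norm_num : (0 : ℝ) < 1 / 2)]
    have h5 : 1 / (16 * (j : ℝ) + 7) ≤ 1 := by
      rw [div_le_one h3]
      have : (0 : ℝ) ≤ j := Nat.cast_nonneg j
      linarith
    have h6 : (0 : ℝ) < (1 / 2) ^ (k + 1) := by positivity
    nlinarith
  have h5 : (1 : ℝ) / 2 ^ (k + 1) = (1 / 2) ^ (k + 1) := by rw [div_pow, one_pow]
  have h6 := le_abs_self (1 / (16 * (j : ℝ) + 7) * (-(1 / 2)) ^ (k + 1))
  rw [h5]
  linarith

/-- Every quaternary rational is, up to an integer, the value of a finite subsum. -/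
theorem finite_rep (j : ℕ) : ∀ (M : ℕ) (m : ℤ), ∃ (B : Finset ℕ) (k : ℤ),
    (∀ n ∈ B, 1 ≤ n ∧ n ≤ 2 * M) ∧
    ∑ n ∈ B, y j n = 4 / (16 * (j : ℝ) + 7) * ((m : ℝ) / 4 ^ M - k) := by
  classical
  intro M
  induction M with
  | zero =>
    intro m
    exact ⟨∅, m, by simp, by simp⟩
  | succ M ih =>
    intro m
    -- the possible last digits
    have step : ∀ (C : Finset ℕ) (d : ℤ), (∀ n ∈ C, 2 * M + 1 ≤ n ∧ n ≤ 2 * M + 2) →
        ∑ n ∈ C, y j n = 4 / (16 * (j : ℝ) + 7) * ((d : ℝ) / 4 ^ (M + 1)) →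
        (4 : ℤ) ∣ m - d → ∃ (B : Finset ℕ) (k : ℤ), (∀ n ∈ B, 1 ≤ n ∧ n ≤ 2 * (M + 1)) ∧
          ∑ n ∈ B, y j n = 4 / (16 * (j : ℝ) + 7) * ((m : ℝ) / 4 ^ (M + 1) - k) := by
      rintro C d hC hsum ⟨m', hm'⟩
      obtain ⟨B, k, hB, hk⟩ := ih m'
      refine ⟨B ∪ C, k, ?_, ?_⟩
      · intro n hn
        rcases Finset.mem_union.1 hn with h | h
        · have := hB n h; omega
        · have := hC n h; omega
      · have hdisj : Disjoint B C := by
          rw [Finset.disjoint_left]
          intro n h1 h2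
          have := hB n h1
          have := hC n h2
          omega
        rw [Finset.sum_union hdisj, hk, hsum, ← mul_add]
        congr 1
        have h1 : (m : ℝ) = d + 4 * m' := by
          have : m = d + 4 * m' := by omega
          exact_mod_cast this
        rw [h1, pow_succ]
        field_simp
        ring
    have hmod : (4 : ℤ) ∣ m - 0 ∨ (4 : ℤ) ∣ m - (4 * j + 2) ∨ (4 : ℤ) ∣ m - (8 * j + 3) ∨
        (4 : ℤ) ∣ m - (12 * j + 5) := by omega
    rcases hmod with h | h | h | h
    · exact step ∅ 0 (by simp) (by simp) h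
    · refine step {2 * (M + 1)} (4 * j + 2) ?_ ?_ h
      · intro n hn
        rw [Finset.mem_singleton] at hn
        omega
      · rw [Finset.sum_singleton, y_even]
        push_cast
        rfl
    · refine step {2 * M + 1} (8 * j + 3) ?_ ?_ h
      · intro n hn
        rw [Finset.mem_singleton] at hn
        omega
      · rw [Finset.sum_singleton, y_odd]
        push_cast
        rfl
    · refine step {2 * M + 1, 2 * (M + 1)} (12 * j + 5) ?_ ?_ h
      · intro n hn
        rw [Finset.mem_insert, Finset.mem_singleton] at hn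
        omega
      · rw [Finset.sum_pair (by omega), y_even, y_odd, ← mul_add]
        congr 1
        push_cast
        ring

open Pointwise in
theorem y_interior (j : ℕ) : (interior (achievementSet (y j))).Nonempty := by
  set s : ℝ := 4 / (16 * (j : ℝ) + 7) with hs
  have hspos : 0 < s := by positivity
  have hcomp : IsCompact (achievementSet (y j)) :=
    E_compact (fun n _ => y_pos j n) (y_summable j)
  -- the lattice
  have hZ : IsClosed (range fun k : ℤ => s * (k : ℝ)) := by
    have h1 : IsClosed (range fun k : ℤ => (k : ℝ)) := Int.isClosedEmbedding_coe_real.isClosed_range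
    have h2 := (Homeomorph.mulLeft₀ s hspos.ne').isClosedMap _ h1
    rw [← range_comp] at h2
    exact h2
  have hF : IsClosed (achievementSet (y j) + range fun k : ℤ => s * (k : ℝ)) :=
    hZ.add_left_of_isCompact hcomp
  have hall : ∀ t : ℝ, t ∈ achievementSet (y j) + range fun k : ℤ => s * (k : ℝ) := by
    intro t
    have hseq : ∀ M : ℕ, s * ((⌊t / s * 4 ^ M⌋ : ℝ) / 4 ^ M) ∈
        achievementSet (y j) + range fun k : ℤ => s * (k : ℝ) := by
      intro M
      obtain ⟨B, k, hB, hk⟩ := finite_rep j M ⌊t / s * 4 ^ M⌋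
      rw [← hs] at hk
      refine ⟨∑ n ∈ B, y j n, ⟨(B : Set ℕ), fun n hn => (hB n hn).1, ?_⟩, s * k, ⟨k, rfl⟩, ?_⟩
      · rw [tsum_eq_sum (s := B)]
        · exact Finset.sum_congr rfl fun n hn => (indicator_of_mem (Finset.mem_coe.2 hn) _).symm
        · intro n hn
          exact indicator_of_notMem (fun h => hn (Finset.mem_coe.1 h)) _
      · simp only [hk]
        ring
    have hlim : Tendsto (fun M : ℕ => s * ((⌊t / s * 4 ^ M⌋ : ℝ) / 4 ^ M)) atTop (𝓝 t) := by
      have h1 : ∀ M : ℕ, |s * ((⌊t / s * 4 ^ M⌋ : ℝ) / 4 ^ M) - t| ≤ s * (1 / 4) ^ M := by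
        intro M
        have hp : (0 : ℝ) < 4 ^ M := by positivity
        have h2 := Int.floor_le (t / s * 4 ^ M)
        have h3 := Int.lt_floor_add_one (t / s * 4 ^ M)
        have h4 : s * ((⌊t / s * 4 ^ M⌋ : ℝ) / 4 ^ M) - t =
            s * (1 / 4) ^ M * ((⌊t / s * 4 ^ M⌋ : ℝ) - t / s * 4 ^ M) := by
          rw [div_pow, one_pow]
          field_simp
        rw [h4, abs_mul, abs_of_pos (by positivity : 0 < s * (1 / 4 : ℝ) ^ M)]
        have h5 : |(⌊t / s * 4 ^ M⌋ : ℝ) - t / s * 4 ^ M| ≤ 1 := by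
          rw [abs_le]
          constructor <;> linarith
        have h6 : 0 < s * (1 / 4 : ℝ) ^ M := by positivity
        nlinarith
      have h2 : Tendsto (fun M : ℕ => s * (1 / 4 : ℝ) ^ M) atTop (𝓝 0) := by
        have := (tendsto_pow_atTop_nhds_zero_of_lt_one (r := (1 / 4 : ℝ)) (by norm_num)
          (by norm_num)).const_mul s
        rwa [mul_zero] at this
      rw [tendsto_iff_norm_sub_tendsto_zero]
      exact squeeze_zero (fun _ => norm_nonneg _) h1 h2
    exact hF.mem_of_tendsto hlim (Eventually.of_forall hseq)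
  obtain ⟨k, hk⟩ := nonempty_interior_of_iUnion_of_closed
    (f := fun k : ℤ => (fun z : ℝ => z + s * k) '' achievementSet (y j))
    (fun k => (hcomp.image (by fun_prop)).isClosed) (by
      rw [eq_univ_iff_forall]
      intro t
      obtain ⟨a, ha, _, ⟨k, rfl⟩, hak⟩ := hall t
      exact mem_iUnion.2 ⟨k, a, ha, hak⟩)
  have h1 : (fun z : ℝ => z + s * k) '' achievementSet (y j) =
      (Homeomorph.addRight (s * (k : ℝ))) '' achievementSet (y j) := rfl
  rw [h1, ← Homeomorph.image_interior] at hk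
  exact hk.of_image

/-- A subset of the line with nonempty interior is not a Cantor set. -/
theorem not_cantor {E : Set ℝ} (h : (interior E).Nonempty) : ¬ Nonempty (E ≃ₜ cantorSet) := by
  rintro ⟨φ⟩
  have ψ := φ.trans cantorSetHomeomorphNatToBool
  have htds : TotallyDisconnectedSpace E := ψ.symm.totallyDisconnectedSpace
  have htd : IsTotallyDisconnected E := totallyDisconnectedSpace_subtype_iff.1 htds
  obtain ⟨a, ha⟩ := h
  obtain ⟨ε, hε, hball⟩ := Metric.isOpen_iff.1 isOpen_interior a ha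
  have hsub : Icc (a - ε / 2) (a + ε / 2) ⊆ E := by
    intro z hz
    apply interior_subset
    apply hball
    rw [Metric.mem_ball, Real.dist_eq, abs_lt]
    constructor <;> linarith [hz.1, hz.2]
  have hs := htd _ hsub isPreconnected_Icc
  have h1 := hs (left_mem_Icc.2 (by linarith)) (right_mem_Icc.2 (by linarith))
  linarith

end Pool.Agent.Y96.AC.Sharp
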